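import Pool.Agent.H57.Final

set_option autoImplicit false

namespace Pool.Agent.Results.MP_d75d7a_an.SumSetSingleton

open Filter Topology

/-- The series with terms `a 0, a 1, ...` has sum `L`. -/
def SumsTo (a : ℕ → ℝ) (L : ℝ) : Prop :=
  Tendsto (fun n => ∑ i ∈ Finset.range n, a i) atTop (𝓝 L)

/-- The series with terms `a 0, a 1, ...` converges. -/
def Converges (a : ℕ → ℝ) : Prop := ∃ L : ℝ, SumsTo a L

/-- `σ` is convergence-preserving. -/
def ConvergencePreserving (σ : Equiv.Perm ℕ) : Prop :=
  ∀ b : ℕ → ℝ, Converges b → Converges (fun i => b (σ i))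

/-- `σ` is a lambda-permutation. -/
def LambdaPermutation (σ : Equiv.Perm ℕ) : Prop :=
  ConvergencePreserving σ ∧ ∃ b : ℕ → ℝ, ¬ Converges b ∧ Converges (fun i => b (σ i))

/-- The series is conditionally divergent. -/
def ConditionallyDivergent (a : ℕ → ℝ) : Prop :=
  ¬ Converges a ∧ ∃ τ : Equiv.Perm ℕ, Converges (fun i => a (τ i))

/-- The set `S` of the problem: sums of the series under lambda-permutations. -/
def lambdaSums (a : ℕ → ℝ) : Set ℝ :=
  {L | ∃ σ : Equiv.Perm ℕ, LambdaPermutation σ ∧ SumsTo (fun i => a (σ i)) L}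

/-- For every real `r` there is a conditionally divergent series with `S = {r}`. -/
theorem result (r : ℝ) : ∃ a : ℕ → ℝ, ConditionallyDivergent a ∧ lambdaSums a = {r} := by
  classical
  -- the base series with sum set `{0}`
  set c : ℕ → ℝ := Pool.Agent.H57.as with hc
  -- change the term at index `0`
  set a : ℕ → ℝ := fun n => c n + if n = 0 then r else 0 with ha
  have hshift : ∀ (σ : Equiv.Perm ℕ) (L : ℝ),
      SumsTo (fun i => a (σ i)) L ↔ SumsTo (fun i => c (σ i)) (L - r) := by
    intro σ L
    have h1 : ∀ᶠ n in atTop, ∑ i ∈ Finset.range n, a (σ i) =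
        ∑ i ∈ Finset.range n, c (σ i) + r := by
      rw [eventually_atTop]
      refine ⟨σ.symm 0 + 1, ?_⟩
      intro n hn
      rw [ha]
      simp only
      rw [Finset.sum_add_distrib]
      congr 1
      rw [Finset.sum_eq_single (σ.symm 0)]
      · simp
      · intro i _ hi
        rw [if_neg]
        intro h
        apply hi
        rw [← h, Equiv.symm_apply_apply]
      · intro h
        exact absurd (Finset.mem_range.2 (by omega)) h
    unfold SumsTo
    constructor
    · intro h
      have h2 := h.sub (tendsto_const_nhds (x := r))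
      refine h2.congr' ?_
      filter_upwards [h1] with n hn
      rw [hn]; ring
    · intro h
      have h2 := h.add (tendsto_const_nhds (x := r))
      rw [sub_add_cancel] at h2
      refine h2.congr' ?_
      filter_upwards [h1] with n hn
      rw [hn]
  have hdiv : ¬ Converges a := by
    rintro ⟨L, hL⟩
    have h1 : SumsTo (fun i => a ((Equiv.refl ℕ) i)) L := hL
    rw [hshift] at h1
    exact Pool.Agent.H57.as_diverges ⟨L - r, h1⟩
  have hr : SumsTo (fun i => a (Pool.Agent.H57.sig0 i)) r := by
    rw [hshift, sub_self]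
    exact Pool.Agent.H57.s0_converges
  refine ⟨a, ⟨hdiv, Pool.Agent.H57.sig0, r, hr⟩, ?_⟩
  ext L
  simp only [lambdaSums, Set.mem_ofPred_eq, Set.mem_singleton_iff]
  constructor
  · rintro ⟨σ, ⟨hσ, _⟩, hL⟩
    rw [hshift] at hL
    have := Pool.Agent.H57.sum_eq_zero σ hσ (L - r) hL
    linarith
  · rintro rfl
    refine ⟨Pool.Agent.H57.sig0, ⟨?_, a, hdiv, L, hr⟩, hr⟩
    rintro b ⟨M, hM⟩
    exact ⟨M, Pool.Agent.H57.s0_preserves b M hM⟩

end Pool.Agent.Results.MP_d75d7a_an.SumSetSingleton
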